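import Pool.Agent.H21.BS.TB

/-!
# The expansion of the four-fold product of the dual function
-/

set_option autoImplicit false

open Finset Pool.Agent.H6.N4D

namespace Pool.Agent.H1.BES

open Pool.Agent.H21.BS

theorem conj_DD (q n : ℕ) : starRingEnd ℂ (DD q n) = DD q n := by
  unfold DD
  split_ifs <;> simp

theorem conj_ee (x : ℝ) : starRingEnd ℂ (ee x) = ee (-x) := by
  unfold ee
  rw [← Complex.exp_conj]
  congr 1
  rw [map_mul, Complex.conj_ofReal, Complex.conj_I]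
  push_cast
  ring

theorem pf_EXQ (hBVL : T_BVL) : T_EXQ := by
  intro W P κ V s o hV ho hs
  obtain ⟨b1, b2, b3⟩ := hBVL
  refine ⟨fun q => V.c (q 0) * starRingEnd ℂ (V.c (q 1)) * starRingEnd ℂ (V.c (q 2)) *
      V.c (q 3) * ee (V.α (q 0) * o 0 - V.α (q 1) * o 1 - V.α (q 2) * o 2 + V.α (q 3) * o 3),
    fun q n => V.g (q 0) (n + o 0) * starRingEnd ℂ (V.g (q 1) (n + o 1)) *
      starRingEnd ℂ (V.g (q 2) (n + o 2)) * V.g (q 3) (n + o 3), ?_, ?_⟩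
  · intro q hq
    have hq' : ∀ j, q j ∈ V.Q := fun j => Fintype.mem_piFinset.1 hq j
    constructor
    · have hc : ∀ j, ‖V.c (q j)‖ ≤ 3 := fun j => hV.cb _ (hq' j)
      rw [norm_mul, norm_mul, norm_mul, norm_mul, RCLike.norm_conj, RCLike.norm_conj, norm_ee,
        mul_one]
      have h1 : ‖V.c (q 0)‖ * ‖V.c (q 1)‖ ≤ 3 * 3 :=
        mul_le_mul (hc 0) (hc 1) (norm_nonneg _) (by norm_num)
      have h2 : ‖V.c (q 0)‖ * ‖V.c (q 1)‖ * ‖V.c (q 2)‖ ≤ 3 * 3 * 3 :=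
        mul_le_mul h1 (hc 2) (norm_nonneg _) (by norm_num)
      have h3 : ‖V.c (q 0)‖ * ‖V.c (q 1)‖ * ‖V.c (q 2)‖ * ‖V.c (q 3)‖ ≤ 3 * 3 * 3 * 3 :=
        mul_le_mul h2 (hc 3) (norm_nonneg _) (by norm_num)
      linarith
    · have hg : ∀ j, BV 10 V.a (V.N - s) fun n => V.g (q j) (n + o j) := fun j =>
        b3 10 V.a V.N (V.N - s) (o j) _ (hV.bv _ (hq' j)) (by have := ho j; omega)
      have h := b1 _ _ _ _ _ _ (b1 _ _ _ _ _ _ (b1 _ _ _ _ _ _ (hg 0) (b2 _ _ _ _ (hg 1)))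
        (b2 _ _ _ _ (hg 2))) (hg 3)
      have e : (10 : ℝ) + 10 + 10 + 10 = 40 := by norm_num
      rw [e] at h
      exact h
  · intro x
    set t : ℕ → ℕ → ℂ := fun q n => 1 / (q : ℂ) * V.c q * V.u q n with ht
    set F : Fin 4 → ℕ → ℂ := ![fun q => t q (V.a + x + o 0),
      fun q => starRingEnd ℂ (t q (V.a + x + o 1)), fun q => starRingEnd ℂ (t q (V.a + x + o 2)),
      fun q => t q (V.a + x + o 3)] with hF
    have h := Finset.prod_univ_sum (fun _ : Fin 4 => V.Q) F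
    rw [Fin.prod_univ_four] at h
    have hL : V.om (V.a + x + o 0) * starRingEnd ℂ (V.om (V.a + x + o 1)) *
      (starRingEnd ℂ (V.om (V.a + x + o 2)) * V.om (V.a + x + o 3)) =
        (∑ q ∈ V.Q, F 0 q) * (∑ q ∈ V.Q, F 1 q) * (∑ q ∈ V.Q, F 2 q) * ∑ q ∈ V.Q, F 3 q := by
      have e0 : ∑ q ∈ V.Q, F 0 q = V.om (V.a + x + o 0) := rfl
      have e1 : ∑ q ∈ V.Q, F 1 q = starRingEnd ℂ (V.om (V.a + x + o 1)) := by
        unfold Cell.om
        rw [map_sum]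
        rfl
      have e2 : ∑ q ∈ V.Q, F 2 q = starRingEnd ℂ (V.om (V.a + x + o 2)) := by
        unfold Cell.om
        rw [map_sum]
        rfl
      have e3 : ∑ q ∈ V.Q, F 3 q = V.om (V.a + x + o 3) := rfl
      rw [e0, e1, e2, e3]
      ring
    rw [hL, h]
    refine Finset.sum_congr rfl fun q _ => ?_
    rw [Fin.prod_univ_four, Fin.prod_univ_four, Fin.prod_univ_four]
    have f0 : F 0 (q 0) = t (q 0) (V.a + x + o 0) := rfl
    have f1 : F 1 (q 1) = starRingEnd ℂ (t (q 1) (V.a + x + o 1)) := rfl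
    have f2 : F 2 (q 2) = starRingEnd ℂ (t (q 2) (V.a + x + o 2)) := rfl
    have f3 : F 3 (q 3) = t (q 3) (V.a + x + o 3) := rfl
    rw [f0, f1, f2, f3]
    simp only [ht, Cell.u, map_mul, map_div₀, map_one, Complex.conj_natCast, conj_DD]
    have hE : ee (V.α (q 0) * ((V.a + x + o 0 : ℕ) : ℝ)) *
        starRingEnd ℂ (ee (V.α (q 1) * ((V.a + x + o 1 : ℕ) : ℝ))) *
        starRingEnd ℂ (ee (V.α (q 2) * ((V.a + x + o 2 : ℕ) : ℝ))) *
        ee (V.α (q 3) * ((V.a + x + o 3 : ℕ) : ℝ)) =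
        ee (V.α (q 0) * o 0 - V.α (q 1) * o 1 - V.α (q 2) * o 2 + V.α (q 3) * o 3) *
          ee ((V.α (q 0) - V.α (q 1) - V.α (q 2) + V.α (q 3)) * ((V.a + x : ℕ) : ℝ)) := by
      rw [conj_ee, conj_ee, ← ee_add, ← ee_add, ← ee_add, ← ee_add]
      congr 1
      push_cast
      ring
    linear_combination (1 / (q 0 : ℂ) * (1 / (q 1 : ℂ)) * (1 / (q 2 : ℂ)) * (1 / (q 3 : ℂ)) *
      (V.c (q 0) * starRingEnd ℂ (V.c (q 1)) * starRingEnd ℂ (V.c (q 2)) * V.c (q 3)) *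
      (DD (q 0) (V.a + x + o 0) * DD (q 1) (V.a + x + o 1) * DD (q 2) (V.a + x + o 2) *
        DD (q 3) (V.a + x + o 3)) *
      (V.g (q 0) (V.a + x + o 0) * starRingEnd ℂ (V.g (q 1) (V.a + x + o 1)) *
        starRingEnd ℂ (V.g (q 2) (V.a + x + o 2)) * V.g (q 3) (V.a + x + o 3))) * hE

end Pool.Agent.H1.BES
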