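import Pool.Agent.H3.BES.SWT

/-!
# N4 (MP_c59857_nt), section BES: the assembly of the theorem
-/

set_option autoImplicit false

open Finset Pool.Agent.H6.N4D Pool.Agent.H93.EB Pool.Agent.H3.BES

namespace Pool.Agent.H1.BES

lemma kp_pos (m : ℕ) : 0 < kp m := by unfold kp; positivity

lemma kp_le_one (m : ℕ) : kp m ≤ 1 := by
  unfold kp
  exact pow_le_one₀ (by norm_num) (by norm_num)

lemma kp_sq (m : ℕ) : 1 ≤ kp m ^ 2 * ((4 ^ (m / 2) : ℕ) : ℝ) := by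
  unfold kp
  have h1 : ((4 ^ (m / 2) : ℕ) : ℝ) = (2 : ℝ) ^ (2 * (m / 2)) := by
    push_cast
    rw [pow_mul]; norm_num
  have h2 : ((1 / 2 : ℝ) ^ (m / 2400)) ^ 2 = 1 / (2 : ℝ) ^ (2 * (m / 2400)) := by
    rw [← pow_mul, mul_comm (m / 2400) 2, one_div_pow]
  rw [h1, h2, one_div, inv_mul_eq_div, one_le_div (by positivity)]
  exact pow_le_pow_right₀ (by norm_num) (by omega)

lemma kp_five (m s : ℕ) (h : 2400 * s ≤ m) : (2 : ℝ) ^ s ≤ kp m ^ 5 * ((2 ^ (m / 400) : ℕ) : ℝ) := by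
  unfold kp
  have h2 : ((1 / 2 : ℝ) ^ (m / 2400)) ^ 5 = 1 / (2 : ℝ) ^ (5 * (m / 2400)) := by
    rw [← pow_mul, mul_comm (m / 2400) 5, one_div_pow]
  rw [h2, one_div, inv_mul_eq_div, le_div_iff₀ (by positivity), ← pow_add]
  push_cast
  exact pow_le_pow_right₀ (by norm_num) (by omega)

lemma QQ_pow (m q : ℕ) (h : q ∈ QQ m) : q ^ 200 ≤ 4 ^ (m / 2) := by
  unfold QQ at h
  have h1 : q ≤ 2 ^ (m / 200) := (mem_Ioc.1 (mem_filter.1 h).1).2
  calc q ^ 200 ≤ (2 ^ (m / 200)) ^ 200 := Nat.pow_le_pow_left h1 _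
    _ = 2 ^ (m / 200 * 200) := by rw [← pow_mul]
    _ ≤ 2 ^ (2 * (m / 2)) := Nat.pow_le_pow_right (by norm_num) (by omega)
    _ = 4 ^ (m / 2) := by rw [pow_mul]; norm_num

lemma QQ_prime (m q : ℕ) (h : q ∈ QQ m) : q.Prime := (mem_filter.1 h).2

lemma QQ_lo (m q : ℕ) (h : q ∈ QQ m) : 2 ^ (m / 400) ≤ q :=
  (mem_Ioc.1 (mem_filter.1 h).1).1.le

lemma m_ge (B K : ℕ) (m : ℕ → ℕ) (hB : 1 ≤ B) (h : ∀ i, i + 1 < K → B * m i ≤ m (i + 1)) :
    ∀ i < K, m 0 ≤ m i := by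
  intro i
  induction i with
  | zero => intro _; exact le_rfl
  | succ i ih =>
    intro hi
    exact (ih (by omega)).trans ((Nat.le_mul_of_pos_left _ hB).trans (h i hi))

lemma BV_one (N n : ℕ) : BV N n (fun _ => 1) := by
  constructor
  · intro m _; simp
  · simp

theorem sw_FIN (h1 : T_GEN) (h2 : T_MSU) (h3 : Pool.Agent.H21.BS.T_NC0)
    (h4 : Pool.Agent.H21.BS.T_CLU) : Pool.Agent.H93.EB.T_BES := by
  obtain ⟨B₀, C, hB₀, hC, H⟩ := h1
  obtain ⟨W, hW⟩ := h2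
  refine ⟨max B₀ 2400, C, le_max_of_le_left hB₀, hC, ?_⟩
  intro R ε hε
  obtain ⟨s₁, hs₁⟩ := H R
  obtain ⟨C', hC', hclu⟩ := h4 W (ε / 2) (by positivity)
  obtain ⟨s₂, hs₂⟩ := pow_unbounded_of_one_lt C' (show (1 : ℝ) < 2 by norm_num)
  refine ⟨max s₁ s₂, ?_⟩
  intro s X K k₁ lam e m hs hX hlam hbase hK hm0 hm hmk
  have hB1 : B₀ ≤ max B₀ 2400 := le_max_left _ _
  have hB2 : 2400 ≤ max B₀ 2400 := le_max_right _ _
  set B := max B₀ 2400 with hBdef
  clear_value B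
  have hsB : s / B ≤ s / B₀ := Nat.div_le_div_left hB1 hB₀
  have hK' : K ≤ 2 ^ (s / B₀) := hK.trans (Nat.pow_le_pow_right (by norm_num) hsB)
  have hm0' : B₀ * s ≤ m 0 := (Nat.mul_le_mul_right _ hB1).trans hm0
  have hm' : ∀ i, i + 1 < K → B₀ * m i ≤ m (i + 1) := fun i hi =>
    (Nat.mul_le_mul_right _ hB1).trans (hm i hi)
  have hmge := m_ge B₀ K m hB₀ hm'
  have hlog : 0 ≤ Real.log X := Real.log_natCast_nonneg X
  have hfin : (C * e + (1 / 2) ^ (s / B₀)) * Real.log X + C * K * (k₁ + 1) ≤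
      (C * e + (1 / 2) ^ (s / B)) * Real.log X + C * K * (k₁ + 1) := by
    have : (1 / 2 : ℝ) ^ (s / B₀) ≤ (1 / 2) ^ (s / B) :=
      pow_le_pow_of_le_one (by norm_num) (by norm_num) hsB
    have := mul_le_mul_of_nonneg_right this hlog
    linarith
  have key : ∀ (α : ℕ → ℕ → ℕ → ℝ) (g : ℕ → ℕ → ℕ → ℕ → ℂ),
      (∀ i < K, ∀ n, ∀ q ∈ QQ (m i), BV (2 ^ m i) n (g i n q)) →
      (∀ i < K, ∀ n, NC (m i) (α i n)) →
      besSum lam X K m α g ≤
        (C * e + (1 / 2) ^ (s / B)) * Real.log X + C * K * (k₁ + 1) := by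
    intro α g hg hα
    exact (hs₁ s X K k₁ lam e m α g (le_trans (le_max_left _ _) hs) hX hlam hbase hK' hm0' hm'
      hmk hg hα).trans hfin
  constructor
  · intro α g hg
    apply key _ _ hg
    intro i hi n
    unfold NC
    rw [h3 (4 ^ (m i / 2)) (kp (m i)) (QQ (m i)) (fun _ => α i n) (α i n)
      (fun q hq => QQ_prime _ _ hq) (fun q hq => QQ_pow _ _ hq) (kp_pos _) (kp_le_one _)
      (kp_sq _) (fun _ _ => rfl)]
    exact (kp_pos _).le
  · intro β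
    have hex : ∀ i n : ℕ, ∃ α : ℕ → ℝ, i < K →
        (∀ q ∈ QQ (m i), ∃ b : ℤ, nd (α q - β i n q - (b : ℝ) / q) ≤ ε / 2 ^ m i) ∧
        NC (m i) α := by
      intro i n
      by_cases hi : i < K
      · obtain ⟨α, ha, hb⟩ := hclu (4 ^ (m i / 2)) (2 ^ (m i / 400)) (kp (m i)) (QQ (m i)) (β i n)
          (fun q hq => QQ_prime _ _ hq) (fun q hq => QQ_lo _ _ hq) (fun q hq => QQ_pow _ _ hq)
          (hW _) (kp_pos _) (kp_le_one _) (kp_sq _) (by
            have hsm : 2400 * s ≤ m i :=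
              ((Nat.mul_le_mul_right _ hB2).trans hm0).trans (hmge i hi)
            refine le_trans ?_ (kp_five (m i) s hsm)
            refine hs₂.le.trans ?_
            exact pow_le_pow_right₀ (by norm_num) (le_trans (le_max_right _ _) hs))
        refine ⟨α, fun _ => ⟨?_, hb⟩⟩
        intro q hq
        obtain ⟨b, hb'⟩ := ha q hq
        refine ⟨b, hb'.trans ?_⟩
        have h5 : (2 : ℝ) ^ m i ≤ 2 * ((4 ^ (m i / 2) : ℕ) : ℝ) := by
          have : (2 : ℝ) * ((4 ^ (m i / 2) : ℕ) : ℝ) = 2 ^ (2 * (m i / 2) + 1) := by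
            push_cast
            rw [pow_succ, pow_mul]; norm_num; ring
          rw [this]
          exact pow_le_pow_right₀ (by norm_num) (by omega)
        rw [div_le_div_iff₀ (by positivity) (by positivity)]
        nlinarith
      · exact ⟨fun _ => 0, fun h => absurd h hi⟩
    choose α hα using hex
    refine ⟨α, fun i hi n => (hα i n hi).1, ?_⟩
    exact key _ _ (fun i _ n q _ => BV_one _ _) (fun i hi n => (hα i n hi).2)

end Pool.Agent.H1.BES
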