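import Pool.Agent.H21.BS.TB

/-!
# Four-fold products at arbitrary points
-/

set_option autoImplicit false

open Finset Pool.Agent.H6.N4D

namespace Pool.Agent.H1.BES

open Pool.Agent.H21.BS

theorem amgm4 (a b c d : ℝ) (ha : 0 ≤ a) (hb : 0 ≤ b) (hc : 0 ≤ c) (hd : 0 ≤ d) :
    a * b * c * d ≤ (a ^ 4 + b ^ 4 + c ^ 4 + d ^ 4) / 4 := by
  have h1 : 0 ≤ (a * b - c * d) ^ 2 := sq_nonneg _
  have h2 : 0 ≤ (a ^ 2 - b ^ 2) ^ 2 := sq_nonneg _
  have h3 : 0 ≤ (c ^ 2 - d ^ 2) ^ 2 := sq_nonneg _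
  nlinarith

theorem pf_HOL (hM4 : T_M4) : T_HOL := by
  intro W P κ V s o hV ho hs
  have hM := hM4 W P κ V hV
  set S : ℝ := 2000 * (4 + W) ^ 4 * V.N with hS
  have hj : ∀ j, ∑ x ∈ range (V.N - s), ‖V.om (V.a + x + o j)‖ ^ 4 ≤ S := by
    intro j
    refine le_trans ?_ hM
    have h1 : ∑ x ∈ range (V.N - s), ‖V.om (V.a + x + o j)‖ ^ 4 =
        ∑ x ∈ (range (V.N - s)).image (fun x => x + o j), ‖V.om (V.a + x)‖ ^ 4 := by
      rw [Finset.sum_image]
      · refine Finset.sum_congr rfl fun x _ => ?_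
        rw [Nat.add_assoc]
      · intro x _ y _ h
        exact Nat.add_right_cancel h
    rw [h1]
    refine Finset.sum_le_sum_of_subset_of_nonneg ?_ fun _ _ _ => by positivity
    intro y hy
    obtain ⟨x, hx, rfl⟩ := Finset.mem_image.1 hy
    have h2 := Finset.mem_range.1 hx
    have h3 := ho j
    exact Finset.mem_range.2 (by omega)
  calc ∑ x ∈ range (V.N - s), ∏ j, ‖V.om (V.a + x + o j)‖
      ≤ ∑ x ∈ range (V.N - s), (‖V.om (V.a + x + o 0)‖ ^ 4 + ‖V.om (V.a + x + o 1)‖ ^ 4 +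
          ‖V.om (V.a + x + o 2)‖ ^ 4 + ‖V.om (V.a + x + o 3)‖ ^ 4) / 4 := by
        refine Finset.sum_le_sum fun x _ => ?_
        rw [Fin.prod_univ_four]
        exact amgm4 _ _ _ _ (norm_nonneg _) (norm_nonneg _) (norm_nonneg _) (norm_nonneg _)
    _ = (∑ x ∈ range (V.N - s), ‖V.om (V.a + x + o 0)‖ ^ 4 +
          ∑ x ∈ range (V.N - s), ‖V.om (V.a + x + o 1)‖ ^ 4 +
          ∑ x ∈ range (V.N - s), ‖V.om (V.a + x + o 2)‖ ^ 4 +
          ∑ x ∈ range (V.N - s), ‖V.om (V.a + x + o 3)‖ ^ 4) / 4 := by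
        rw [← Finset.sum_div, Finset.sum_add_distrib, Finset.sum_add_distrib,
          Finset.sum_add_distrib]
    _ ≤ (S + S + S + S) / 4 := by
        have := hj 0
        have := hj 1
        have := hj 2
        have := hj 3
        linarith
    _ = S := by ring

end Pool.Agent.H1.BES
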